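import Mathlib
import Pool.Agent.H321R2.OSI.Lower

/-!
# Q1 is false: with constant failure probability the error is not `1 + O(ε)`
-/

namespace Pool.Agent.Results.MP_082b65_an.ConstantFailureFails

open MeasureTheory Matrix Finset Pool.Agent.H321R2.OSI

/-- The relative error bound of the question, for failure probabilities `δ ε`, on the range
`0 < ε ≤ ε₀`, `ε < 1`: for every real matrix `A` (`n × d`), every `1 ≤ r ≤ d` and every random
`d × k` matrix `S` that is an oblivious subspace injection with dimension `r`, injectivity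
`1 - ε` and failure probability `δ ε`, there is an event `D` of probability at least `p₀` on
which the randomized SVD satisfies `‖A - Ã‖_F ≤ (1 + C ε) ‖A - A_r‖_F`. -/
def RelBound (ε₀ : ℝ) (δ : ℝ → ℝ) (C p₀ : ℝ) : Prop :=
  ∀ ε : ℝ, 0 < ε → ε ≤ ε₀ → ε < 1 →
    ∀ (n d k r : ℕ), 1 ≤ r → r ≤ d → ∀ (A : Matrix (Fin n) (Fin d) ℝ)
      (W : Type) (_ : MeasurableSpace W) (P : Measure W) (_ : IsProbabilityMeasure P)
      (S : W → Matrix (Fin d) (Fin k) ℝ), IsOSI P S r (1 - ε) (δ ε) →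
        ∃ D : Set W, MeasurableSet D ∧ p₀ ≤ P.real D ∧
          ∀ w ∈ D, frob (A - rsvd A (S w)) ≤ (1 + C * ε) * bestErr A r

/-- `S` is an OSI of dimension one, failure probability `δ` and injectivity `1`, and the
randomized SVD of `A` has relative error more than `1 + δ³ / 1000` for every outcome. -/
structure Bad (δ : ℝ) (n d k : ℕ) (A : Matrix (Fin n) (Fin d) ℝ) (W : Type)
    (_ : MeasurableSpace W) (P : Measure W) (S : W → Matrix (Fin d) (Fin k) ℝ) : Prop where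
  prob : IsProbabilityMeasure P
  pos : 1 ≤ d
  osi : IsOSI P S 1 1 δ
  err : ∀ w, (1 + δ ^ 3 / 1000) * bestErr A 1 < frob (A - rsvd A (S w))

lemma bestErr_nonneg {n d : ℕ} (A : Matrix (Fin n) (Fin d) ℝ) (r : ℕ) : 0 ≤ bestErr A r := by
  unfold bestErr
  apply Real.sInf_nonneg
  rintro e ⟨B, _, rfl⟩
  exact Real.sqrt_nonneg _

/-- The examples. -/
theorem exists_bad (δ : ℝ) (h0 : 0 < δ) (h1 : δ ≤ 1) :
    ∃ (n d k : ℕ) (A : Matrix (Fin n) (Fin d) ℝ) (W : Type) (m : MeasurableSpace W)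
      (P : Measure W) (S : W → Matrix (Fin d) (Fin k) ℝ), Bad δ n d k A W m P S := by
  -- the number `K` of values of the failure variable
  set K : ℕ := ⌈2 / δ⌉₊ with hK
  have hK1 : 2 / δ ≤ K := Nat.le_ceil _
  have hKδ : 2 ≤ δ * K := by
    rw [div_le_iff₀ h0] at hK1
    linarith
  have hK2' : (2 : ℝ) ≤ K := by
    have : (2 : ℝ) ≤ 2 / δ := by rw [le_div_iff₀ h0]; linarith
    linarith
  have hK2 : 2 ≤ K := by exact_mod_cast hK2'
  have hKu : δ * K ≤ 3 := by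
    have h := Nat.ceil_lt_add_one (show (0 : ℝ) ≤ 2 / δ by positivity)
    rw [← hK] at h
    have h2 : δ * K < δ * (2 / δ + 1) := mul_lt_mul_of_pos_left h h0
    have h3 : δ * (2 / δ + 1) = 2 + δ := by field_simp
    linarith
  haveI : NeZero K := ⟨by omega⟩
  -- the coherence `s`
  set s : ℝ := Real.sqrt (δ ^ 3 / 54) with hs
  have hδ3 : 0 < δ ^ 3 := by positivity
  have hδ3' : δ ^ 3 ≤ 1 := pow_le_one₀ h0.le h1
  have hs2 : s ^ 2 = δ ^ 3 / 54 := Real.sq_sqrt (by positivity)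
  have hs0 : 0 < s := Real.sqrt_pos.2 (by positivity)
  have hs1 : s ≤ 1 / 2 := by
    nlinarith
  -- the prime `p`
  obtain ⟨p, hpl, hp⟩ := Nat.exists_infinite_primes (⌈1 + 8 / s ^ 2⌉₊ + 2)
  haveI : Fact p.Prime := ⟨hp⟩
  have hp1 : 1 + 8 / s ^ 2 ≤ (p : ℝ) := by
    have : (1 + 8 / s ^ 2) ≤ (⌈1 + 8 / s ^ 2⌉₊ : ℝ) := Nat.le_ceil _
    have h2 : ((⌈1 + 8 / s ^ 2⌉₊ + 2 : ℕ) : ℝ) ≤ p := by exact_mod_cast hpl
    push_cast at h2
    linarith
  have hsp : 8 ≤ ((p : ℝ) - 1) * s ^ 2 := by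
    have : 8 / s ^ 2 ≤ (p : ℝ) - 1 := by linarith
    rwa [div_le_iff₀ (by positivity)] at this
  have hpm : 0 < (p : ℝ) - 1 := by
    have : 0 < 8 / s ^ 2 := by positivity
    linarith
  have hcoh : 1 / ((p : ℝ) - 1) ≤ s ^ 2 / 8 := by
    rw [div_le_iff₀ hpm]
    linarith
  obtain ⟨w, hw1, hw2, hw3⟩ := exists_lowcoh p
  have hN : 0 < p ^ 3 := pow_pos hp.pos 3
  have hpN : ((p ^ 2 : ℕ) : ℝ) + 1 ≤ ((p ^ 3 : ℕ) : ℝ) * s ^ 2 / 4 := by
    push_cast
    have hpp : (1 : ℝ) ≤ p := by linarith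
    have h3 : 8 * (p : ℝ) ^ 2 ≤ (p : ℝ) ^ 3 * s ^ 2 := by
      have : 8 ≤ (p : ℝ) * s ^ 2 := by nlinarith [sq_nonneg s]
      calc 8 * (p : ℝ) ^ 2 ≤ ((p : ℝ) * s ^ 2) * (p : ℝ) ^ 2 :=
            mul_le_mul_of_nonneg_right this (by positivity)
        _ = _ := by ring
    nlinarith
  have hgd : ∀ j, gram (brow s w) j j = 1 := by
    intro j
    refine Fin.cases ?_ (fun i => ?_) j
    · exact gram_brow_zero s w
    · rw [gram_brow_succ s (by nlinarith) w i i, hw1]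
      ring
  have hgo : ∀ j l, j ≠ l → |gram (brow s w) j l| ≤ s := by
    intro j l hjl
    refine Fin.cases ?_ (fun i => ?_) j hjl
    · refine Fin.cases ?_ (fun i' => ?_) l
      · intro h; exact absurd rfl h
      · intro _
        rw [gram_brow_zero_succ, abs_of_pos hs0]
    · refine Fin.cases ?_ (fun i' => ?_) l
      · intro _
        rw [gram_symm, gram_brow_zero_succ, abs_of_pos hs0]
      · intro h
        have hne : i ≠ i' := fun h' => h (by rw [h'])
        rw [gram_brow_succ s (by nlinarith) w i i']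
        have h5 := hw2 i i' hne
        have h6 : |s ^ 2 + (1 - s ^ 2) * ∑ i_1, w i i_1 * w i' i_1| ≤
            s ^ 2 + (1 - s ^ 2) * |∑ i_1, w i i_1 * w i' i_1| := by
          refine (abs_add_le _ _).trans ?_
          rw [abs_mul, abs_of_nonneg (sq_nonneg s), abs_of_nonneg (by nlinarith : 0 ≤ 1 - s ^ 2)]
        refine h6.trans ?_
        have h7 : (1 - s ^ 2) * |∑ i_1, w i i_1 * w i' i_1| ≤ 1 * (s ^ 2 / 8) := by
          apply mul_le_mul (by nlinarith [sq_nonneg s]) (h5.trans hcoh) (abs_nonneg _) (by norm_num)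
        nlinarith
  have hsK : 2 * s ^ 2 * (K : ℝ) ^ 3 ≤ 1 := by
    rw [hs2]
    have h8 : (δ * K) ^ 3 ≤ 3 ^ 3 := pow_le_pow_left₀ (by positivity) hKu 3
    have h9 : 2 * (δ ^ 3 / 54) * (K : ℝ) ^ 3 = (δ * K) ^ 3 / 27 := by ring
    rw [h9]
    linarith
  have hosi := isOSI_Smat hK2 (brow s w) hgd s hgo hsK δ hKδ 0 le_rfl
  rw [sub_zero] at hosi
  refine ⟨p ^ 3 + 1, p ^ 3 + 1, p ^ 2 + 1, diagonal (avec (p ^ 3)), Smp K (p ^ 3 + 1),
    inferInstance, unif (Smp K (p ^ 3 + 1)), Smat K (brow s w), inferInstance, by omega, hosi, ?_⟩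
  intro ω
  have hlow := err_lower hK2 s (by linarith) hs0 w hw3 hN hpN ω
  set F := frob (diagonal (avec (p ^ 3)) - rsvd (diagonal (avec (p ^ 3)))
    (Smat K (brow s w) ω)) with hF
  have hF0 : 0 ≤ F := Real.sqrt_nonneg _
  have hb := bestErr_le (p ^ 3)
  have hNr : (0 : ℝ) < ((p ^ 3 : ℕ) : ℝ) := by exact_mod_cast hN
  set M : ℝ := ((p ^ 3 : ℕ) : ℝ) with hM
  have hM0 : 0 < Real.sqrt M := Real.sqrt_pos.2 hNr
  have h10 : ((1 + δ ^ 3 / 1000) * Real.sqrt M) ^ 2 < F ^ 2 := by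
    have h11 : ((1 + δ ^ 3 / 1000) * Real.sqrt M) ^ 2 = (1 + δ ^ 3 / 1000) ^ 2 * M := by
      rw [mul_pow, Real.sq_sqrt hNr.le]
    rw [h11]
    refine lt_of_lt_of_le ?_ hlow
    rw [hs2, mul_comm M]
    apply mul_lt_mul_of_pos_right _ hNr
    nlinarith
  have h12 : (1 + δ ^ 3 / 1000) * Real.sqrt M < F := lt_of_pow_lt_pow_left₀ 2 hF0 h10
  refine lt_of_le_of_lt ?_ h12
  exact mul_le_mul_of_nonneg_left hb (by positivity)

/-- If `δ ε ≤ 1` and `C ε < (δ ε)³ / 1000` for arbitrarily small `ε`, the bound fails. -/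
theorem not_relBound (ε₀ : ℝ) (δ : ℝ → ℝ) (C p₀ : ℝ) (hp : 0 < p₀)
    (h : ∃ ε : ℝ, 0 < ε ∧ ε ≤ ε₀ ∧ ε < 1 ∧ 0 < δ ε ∧ δ ε ≤ 1 ∧ C * ε ≤ (δ ε) ^ 3 / 1000) :
    ¬ RelBound ε₀ δ C p₀ := by
  obtain ⟨ε, hε0, hε1, hε2, hδ0, hδ1, hC⟩ := h
  intro hB
  obtain ⟨n, d, k, A, W, m, P, S, hbad⟩ := exists_bad (δ ε) hδ0 hδ1
  haveI := hbad.prob
  have hosi : IsOSI P S 1 (1 - ε) (δ ε) := by
    refine ⟨hbad.osi.measurable, hbad.osi.integrable, hbad.osi.isotropy, ?_⟩
    intro V hV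
    refine (hbad.osi.injectivity V hV).trans ?_
    refine measureReal_mono ?_ (measure_ne_top _ _)
    intro w hw x hx
    have h1 := hw x hx
    have h2 : 0 ≤ sqn x := Finset.sum_nonneg fun _ _ => sq_nonneg _
    nlinarith
  obtain ⟨D, -, hD1, hD2⟩ := hB ε hε0 hε1 hε2 n d k 1 le_rfl hbad.pos A W m P inferInstance S hosi
  have hne : D.Nonempty := by
    by_contra hcon
    rw [Set.not_nonempty_iff_eq_empty] at hcon
    rw [hcon, measureReal_empty] at hD1
    linarith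
  obtain ⟨w, hw⟩ := hne
  have h1 := hD2 w hw
  have h2 := hbad.err w
  have h3 : (1 + C * ε) * bestErr A 1 ≤ (1 + (δ ε) ^ 3 / 1000) * bestErr A 1 :=
    mul_le_mul_of_nonneg_right (by linarith) (bestErr_nonneg A 1)
  linarith

/-- **Negative answer to Q1, also for polynomially small failure probabilities.**

* With a constant failure probability `δ₀ > 0` (`δ₀ = 0.01` and `ε₀ = 1` is Q1) there are no
  constants `C` and `p₀ > 0` such that the bound `(1 + C ε) ‖A - A_r‖_F` holds with probability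
  at least `p₀` for all `ε ∈ (0, ε₀]`.
* The same for the failure probability `ε ^ c`, for every real exponent `0 ≤ c < 1 / 3`. -/
theorem result :
    (∀ ε₀ δ₀ C p₀ : ℝ, 0 < ε₀ → 0 < δ₀ → 0 < p₀ → ¬ RelBound ε₀ (fun _ => δ₀) C p₀) ∧
    (∀ ε₀ c C p₀ : ℝ, 0 < ε₀ → 0 ≤ c → c < 1 / 3 → 0 < p₀ →
      ¬ RelBound ε₀ (fun ε => ε ^ c) C p₀) := by
  have key : ∀ ε₀ δ₀ C p₀ : ℝ, 0 < ε₀ → 0 < δ₀ → δ₀ ≤ 1 → 0 < p₀ →
      ¬ RelBound ε₀ (fun _ => δ₀) C p₀ := by
    intro ε₀ δ₀ C p₀ h1 h2 h3 h4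
    apply not_relBound ε₀ _ C p₀ h4
    set D := δ₀ ^ 3 / 1000 with hD
    have hD0 : 0 < D := by positivity
    have hq : 0 < D / (|C| + 1) := by positivity
    refine ⟨min (min ε₀ (1 / 2)) (D / (|C| + 1)), ?_, ?_, ?_, h2, h3, ?_⟩
    · exact lt_min (lt_min h1 (by norm_num)) hq
    · exact (min_le_left _ _).trans (min_le_left _ _)
    · exact lt_of_le_of_lt ((min_le_left _ _).trans (min_le_right _ _)) (by norm_num)
    · set e := min (min ε₀ (1 / 2)) (D / (|C| + 1)) with he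
      have he0 : 0 < e := lt_min (lt_min h1 (by norm_num)) hq
      have he1 : e ≤ D / (|C| + 1) := min_le_right _ _
      rw [le_div_iff₀ (by positivity)] at he1
      have : C * e ≤ |C| * e := mul_le_mul_of_nonneg_right (le_abs_self C) he0.le
      nlinarith
  have mono : ∀ ε₀ δ₀ δ₁ C p₀ : ℝ, δ₁ ≤ δ₀ → RelBound ε₀ (fun _ => δ₀) C p₀ →
      RelBound ε₀ (fun _ => δ₁) C p₀ := by
    intro ε₀ δ₀ δ₁ C p₀ h hB ε a1 a2 a3 n d k r a4 a5 A W m P hP S hS
    refine hB ε a1 a2 a3 n d k r a4 a5 A W m P hP S ?_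
    refine ⟨hS.measurable, hS.integrable, hS.isotropy, fun V hV => ?_⟩
    have := hS.injectivity V hV
    linarith
  refine ⟨?_, ?_⟩
  · intro ε₀ δ₀ C p₀ h1 h2 h3 hB
    exact key ε₀ (min δ₀ 1) C p₀ h1 (lt_min h2 one_pos) (min_le_right _ _) h3
      (mono ε₀ δ₀ (min δ₀ 1) C p₀ (min_le_left _ _) hB)
  · intro ε₀ c C p₀ h1 h2 h3 h4
    apply not_relBound ε₀ _ C p₀ h4
    -- `C ε ≤ ε ^ (3 c) / 1000` for small `ε`
    have ha : 0 < 1 - 3 * c := by linarith
    set T : ℝ := (1000 * (|C| + 1)) ^ (-(1 / (1 - 3 * c))) with hT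
    have hT0 : 0 < T := by positivity
    refine ⟨min (min ε₀ (1 / 2)) T, ?_, ?_, ?_, ?_, ?_, ?_⟩
    · exact lt_min (lt_min h1 (by norm_num)) hT0
    · exact (min_le_left _ _).trans (min_le_left _ _)
    · exact lt_of_le_of_lt ((min_le_left _ _).trans (min_le_right _ _)) (by norm_num)
    · have : 0 < min (min ε₀ (1 / 2)) T := lt_min (lt_min h1 (by norm_num)) hT0
      positivity
    · have : 0 < min (min ε₀ (1 / 2)) T := lt_min (lt_min h1 (by norm_num)) hT0
      apply Real.rpow_le_one this.le _ h2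
      exact (min_le_left _ _).trans ((min_le_right _ _).trans (by norm_num))
    · set e := min (min ε₀ (1 / 2)) T with he
      have he0 : 0 < e := lt_min (lt_min h1 (by norm_num)) hT0
      have he1 : e ≤ T := min_le_right _ _
      have h5 : (e ^ c) ^ 3 = e ^ (3 * c) := by
        rw [← Real.rpow_natCast, ← Real.rpow_mul he0.le]
        congr 1
        push_cast
        ring
      have h6 : e = e ^ (3 * c) * e ^ (1 - 3 * c) := by
        rw [← Real.rpow_add he0]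
        norm_num
      have h7 : e ^ (1 - 3 * c) ≤ 1 / (1000 * (|C| + 1)) := by
        calc e ^ (1 - 3 * c) ≤ T ^ (1 - 3 * c) := Real.rpow_le_rpow he0.le he1 ha.le
          _ = 1 / (1000 * (|C| + 1)) := by
              rw [hT, ← Real.rpow_mul (by positivity)]
              have : -(1 / (1 - 3 * c)) * (1 - 3 * c) = -1 := by
                field_simp
              rw [this, Real.rpow_neg_one, one_div]
      have h8 : C * e ≤ (|C| + 1) * e := by
        apply mul_le_mul_of_nonneg_right _ he0.le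
        linarith [le_abs_self C]
      beta_reduce
      rw [h5]
      refine h8.trans ?_
      have h9 : (|C| + 1) * e ^ (1 - 3 * c) ≤ 1 / 1000 := by
        calc (|C| + 1) * e ^ (1 - 3 * c) ≤ (|C| + 1) * (1 / (1000 * (|C| + 1))) :=
              mul_le_mul_of_nonneg_left h7 (by positivity)
          _ = 1 / 1000 := by field_simp
      have h10 : 0 < e ^ (3 * c) := by positivity
      calc (|C| + 1) * e = ((|C| + 1) * e ^ (1 - 3 * c)) * e ^ (3 * c) := by
            conv_lhs => rw [h6]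
            ring
        _ ≤ (1 / 1000) * e ^ (3 * c) := mul_le_mul_of_nonneg_right h9 h10.le
        _ = _ := by ring

end Pool.Agent.Results.MP_082b65_an.ConstantFailureFails
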